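import Mathlib
import Pool.Agent.S13611
import Pool.Agent.W567.Spencer2

/-!
# Vector balancing constant of zonotopes

Composition of the linear size sparsification of zonotopes (starting proof of `S13611`), a
separation argument, the reduction to few fractional coordinates and Spencer's theorem in its
linear discrepancy form (starting library `W567/Spencer2`).
-/

set_option autoImplicit false

open Finset

namespace Pool.Agent.R77.VB

/-- comparison of the support functions of two zonotopes gives containment -/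
theorem zon_subset {d m n : ℕ} (v : Fin m → (Fin d → ℝ)) (w : Fin n → (Fin d → ℝ))
    (h : ∀ x : Fin d → ℝ, ∑ j, |∑ i, v j i * x i| ≤ ∑ k, |∑ i, w k i * x i|)
    (t : Fin m → ℝ) (ht : ∀ j, |t j| ≤ 1) :
    ∃ s : Fin n → ℝ, (∀ k, |s k| ≤ 1) ∧ ∑ j, t j • v j = ∑ k, s k • w k := by
  classical
  -- the zonotope of `w`
  let L : (Fin n → ℝ) →ₗ[ℝ] (Fin d → ℝ) := Fintype.linearCombination ℝ w
  have hLapp : ∀ s, L s = ∑ k, s k • w k := fun s => Fintype.linearCombination_apply ℝ w s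
  let B : Set (Fin n → ℝ) := {s | ∀ k, |s k| ≤ 1}
  have hB : B = Set.Icc (fun _ => (-1:ℝ)) (fun _ => 1) := by
    ext s; simp only [B, Set.mem_Icc, Pi.le_def]
    change (∀ k, |s k| ≤ 1) ↔ _
    simp only [abs_le]
    exact ⟨fun h => ⟨fun k => (h k).1, fun k => (h k).2⟩, fun h k => ⟨h.1 k, h.2 k⟩⟩
  have hBc : IsCompact B := by rw [hB]; exact isCompact_Icc
  have hBconv : Convex ℝ B := by rw [hB]; exact convex_Icc _ _
  have hLcont : Continuous L := LinearMap.continuous_of_finiteDimensional L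
  have hKc : IsCompact (L '' B) := hBc.image hLcont
  have hKconv : Convex ℝ (L '' B) := hBconv.linear_image L
  by_contra hcon
  push Not at hcon
  have hy : (∑ j, t j • v j) ∉ L '' B := by
    rintro ⟨s, hs, hs2⟩
    exact hcon s hs (by rw [← hs2, hLapp])
  obtain ⟨f, c, hf1, hf2⟩ := geometric_hahn_banach_closed_point hKconv hKc.isClosed hy
  -- coordinates of `f`
  let x : Fin d → ℝ := fun i => f (Pi.single i 1)
  have hfx : ∀ z : Fin d → ℝ, f z = ∑ i, z i * x i := by
    intro z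
    have hz : z = ∑ i, z i • (Pi.single i 1 : Fin d → ℝ) := by
      funext j
      simp [Finset.sum_apply, Pi.single_apply]
    conv_lhs => rw [hz]
    rw [map_sum]
    refine Finset.sum_congr rfl fun i _ => ?_
    rw [map_smul, smul_eq_mul]
  -- the maximiser
  let s0 : Fin n → ℝ := fun k => if 0 ≤ f (w k) then 1 else -1
  have hs0 : s0 ∈ B := by
    intro k
    simp only [s0]
    split_ifs <;> simp
  have h1 : f (L s0) = ∑ k, |f (w k)| := by
    rw [hLapp, map_sum]
    refine Finset.sum_congr rfl fun k _ => ?_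
    rw [map_smul, smul_eq_mul]
    simp only [s0]
    split_ifs with hk
    · rw [abs_of_nonneg hk, one_mul]
    · rw [abs_of_neg (not_le.mp hk)]; ring
  have h2 := hf1 _ ⟨s0, hs0, rfl⟩
  have h3 : f (∑ j, t j • v j) ≤ ∑ j, |f (v j)| := by
    rw [map_sum]
    refine Finset.sum_le_sum fun j _ => ?_
    rw [map_smul, smul_eq_mul]
    calc t j * f (v j) ≤ |t j * f (v j)| := le_abs_self _
      _ = |t j| * |f (v j)| := abs_mul _ _
      _ ≤ 1 * |f (v j)| := by gcongr; exact ht j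
      _ = |f (v j)| := one_mul _
  have h4 := h x
  have h5 : ∀ z : Fin d → ℝ, |f z| = |∑ i, z i * x i| := fun z => by rw [hfx]
  simp_rw [← h5] at h4
  rw [h1] at h2
  linarith

/-- sparsification: a zonotope in dimension `d` is between `Z` and `3/2 Z` for a zonotope `Z` with
`O(d)` segments. -/
theorem sparse : ∃ C : ℝ, 0 < C ∧ ∀ (d m : ℕ) (v : Fin m → (Fin d → ℝ)),
    ∃ (N : ℕ) (w : Fin N → (Fin d → ℝ)), (N : ℝ) ≤ C * d ∧
      (∀ x : Fin d → ℝ, ∑ k, |∑ i, w k i * x i| ≤ ∑ j, |∑ i, v j i * x i|) ∧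
      (∀ x : Fin d → ℝ, ∑ j, |∑ i, v j i * x i| ≤ 3 / 2 * ∑ k, |∑ i, w k i * x i|) := by
  obtain ⟨C, hC, h⟩ := Pool.Agent.S13611.result
  refine ⟨4 * C + 1, by positivity, fun d m v => ?_⟩
  rcases le_total d m with hdm | hdm
  · obtain ⟨N, hN, w, hw⟩ := h d m hdm v (1 / 2) (by norm_num) le_rfl
    refine ⟨N, w, ?_, fun x => ?_, fun x => ?_⟩
    · have : C * (d:ℝ) / (1 / 2) ^ 2 = 4 * C * d := by ring
      rw [this] at hN
      have : (0:ℝ) ≤ d := Nat.cast_nonneg d
      nlinarith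
    · exact (hw x).1
    · have := (hw x).2
      have e : (1 + 1 / 2 : ℝ) = 3 / 2 := by norm_num
      rw [e] at this
      exact this
  · refine ⟨m, v, ?_, fun x => le_rfl, fun x => ?_⟩
    · have h1 : (m:ℝ) ≤ d := by exact_mod_cast hdm
      have : (0:ℝ) ≤ d := Nat.cast_nonneg d
      nlinarith
    · have : 0 ≤ ∑ j, |∑ i, v j i * x i| := Finset.sum_nonneg fun _ _ => abs_nonneg _
      linarith

theorem main :
    ∃ C : ℝ, 0 < C ∧
      ∀ (d m : ℕ) (v : Fin m → (Fin d → ℝ)) (n : ℕ) (u : Fin n → (Fin d → ℝ)),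
        (∀ i, ∃ t : Fin m → ℝ, (∀ j, t j ∈ Set.Icc (-1 : ℝ) 1) ∧
            u i = ∑ j, t j • v j) →
        ∃ ε : Fin n → ℝ, (∀ i, ε i = 1 ∨ ε i = -1) ∧
          ∃ s : Fin m → ℝ, (∀ j, s j ∈ Set.Icc (-1 : ℝ) 1) ∧
            ∑ i, ε i • u i = (C * Real.sqrt d) • ∑ j, s j • v j := by
  obtain ⟨C1, hC1, hsp⟩ := sparse
  obtain ⟨C2, hC2, hfc⟩ := Pool.Agent.W567.Spencer.full_col'
  have hC2p : 0 < C2 := by linarith
  refine ⟨3 / 2 * (2 * (C2 * √(C1 + 1)) + 1), by positivity, fun d m v n u hu => ?_⟩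
  set K : ℝ := 3 / 2 * (2 * (C2 * √(C1 + 1)) + 1) with hK
  rcases Nat.eq_zero_or_pos d with hd | hd
  · subst hd
    exact ⟨fun _ => 1, fun _ => Or.inl rfl, fun _ => 0, fun _ => by simp, Subsingleton.elim _ _⟩
  obtain ⟨N, w, hN, hwv, hvw⟩ := hsp d m v
  -- the padded system
  let w' : Fin (N + d) → (Fin d → ℝ) := fun k => if h : (k : ℕ) < N then w ⟨k, h⟩ else 0
  have hw'sum : ∀ x : Fin d → ℝ, ∑ k, |∑ i, w' k i * x i| = ∑ k, |∑ i, w k i * x i| := by
    intro x
    rw [Fin.sum_univ_add]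
    have h1 : ∀ k : Fin N, w' (Fin.castAdd d k) = w k := by
      intro k; simp [w']
    have h2 : ∀ k : Fin d, w' (Fin.natAdd N k) = 0 := by
      intro k; simp [w']
    simp [h1, h2]
  -- coefficients of the vectors in the padded system
  have hcoef : ∀ i, ∃ s : Fin (N + d) → ℝ, (∀ k, |s k| ≤ 1) ∧
      u i = (3 / 2 : ℝ) • ∑ k, s k • w' k := by
    intro i
    obtain ⟨t, ht, hti⟩ := hu i
    obtain ⟨s, hs, hs2⟩ := zon_subset v (fun k => (3 / 2 : ℝ) • w' k) (by
      intro x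
      have := hvw x
      rw [← hw'sum x] at this
      refine this.trans (le_of_eq ?_)
      rw [Finset.mul_sum]
      refine Finset.sum_congr rfl fun k _ => ?_
      have e : ∑ i, ((3 / 2 : ℝ) • w' k) i * x i = 3 / 2 * ∑ i, w' k i * x i := by
        rw [Finset.mul_sum]
        refine Finset.sum_congr rfl fun i _ => ?_
        simp only [Pi.smul_apply, smul_eq_mul]; ring
      rw [e, abs_mul]
      norm_num) t (fun j => abs_le.mpr ⟨(ht j).1, (ht j).2⟩)
    refine ⟨s, hs, ?_⟩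
    rw [hti, hs2, Finset.smul_sum]
    refine Finset.sum_congr rfl fun k _ => ?_
    rw [smul_comm]
  choose S hS hSu using hcoef
  -- few fractional coordinates
  obtain ⟨x, hx, hxsum, hxcard⟩ := Pool.Agent.W567.Spencer.few_fractional d n u
  have hM0 : (0:ℝ) ≤ ((N + d : ℕ) : ℝ) := Nat.cast_nonneg _
  obtain ⟨ε, hε, hεb⟩ := Pool.Agent.W567.Spencer.lindisc (N + d) (C2 * √((N + d : ℕ) : ℝ))
    (fun J _ _ f hJ hf => hfc (N + d) J f hJ hf) (by positivity) (Fin n) S hS x hx
    (hxcard.trans (Nat.le_add_left d N))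
  refine ⟨ε, hε, ?_⟩
  set D : ℝ := 2 * (C2 * √((N + d : ℕ) : ℝ)) + 1 with hD
  have hDpos : 0 < D := by positivity
  -- the signed sum
  have hsum : ∑ i, ε i • u i = (3 / 2 : ℝ) • ∑ k, (∑ i, (ε i - x i) * S i k) • w' k := by
    have h1 : ∑ i, ε i • u i = ∑ i, (ε i - x i) • u i := by
      simp only [sub_smul, Finset.sum_sub_distrib, hxsum, sub_zero]
    rw [h1]
    have h2 : ∀ i, (ε i - x i) • u i = (3 / 2 : ℝ) • ∑ k, ((ε i - x i) * S i k) • w' k := by
      intro i
      rw [hSu i, smul_comm, Finset.smul_sum]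
      simp only [mul_smul]
    rw [Finset.sum_congr rfl fun i _ => h2 i, ← Finset.smul_sum, Finset.sum_comm]
    congr 1
    refine Finset.sum_congr rfl fun k _ => ?_
    rw [Finset.sum_smul]
  -- back to `v`
  obtain ⟨s, hs, hs2⟩ := zon_subset w' v (fun y => by rw [hw'sum y]; exact hwv y)
    (fun k => (∑ i, (ε i - x i) * S i k) / D) (fun k => by
      rw [abs_div, abs_of_pos hDpos, div_le_one hDpos]; exact hεb k)
  have hdr : (1:ℝ) ≤ √d := by
    rw [Real.one_le_sqrt]; exact_mod_cast hd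
  have hKd : 3 / 2 * D ≤ K * √d := by
    have h1 : √((N + d : ℕ) : ℝ) ≤ √(C1 + 1) * √d := by
      rw [← Real.sqrt_mul (by positivity)]
      apply Real.sqrt_le_sqrt
      push_cast
      linarith
    rw [hK, hD]
    have h2 : C2 * √((N + d : ℕ) : ℝ) ≤ C2 * (√(C1 + 1) * √d) := by gcongr
    nlinarith
  have hKpos : 0 < K * √d := lt_of_lt_of_le (by positivity) hKd
  have key : ∑ i, ε i • u i = (3 / 2 * D) • ∑ j, s j • v j := by
    rw [hsum, ← hs2, mul_smul]
    congr 1
    rw [Finset.smul_sum]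
    refine Finset.sum_congr rfl fun k _ => ?_
    rw [smul_smul]
    congr 1
    field_simp
  refine ⟨fun j => (3 / 2 * D) / (K * √d) * s j, fun j => ?_, ?_⟩
  · rw [Set.mem_Icc, ← abs_le, abs_mul, abs_of_nonneg (by positivity)]
    calc (3 / 2 * D) / (K * √d) * |s j| ≤ 1 * 1 := by
          gcongr
          · exact (div_le_one hKpos).mpr hKd
          · exact hs j
      _ = 1 := one_mul 1
  · rw [key, Finset.smul_sum, Finset.smul_sum]
    refine Finset.sum_congr rfl fun j _ => ?_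
    rw [smul_smul, smul_smul]
    congr 1
    have hne : K * √d ≠ 0 := hKpos.ne'
    calc 3 / 2 * D * s j = (K * √d) * ((3 / 2 * D) / (K * √d)) * s j := by
          rw [mul_div_cancel₀ _ hne]
      _ = _ := by ring

end Pool.Agent.R77.VB
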