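import Pool.Agent.Helper244.Br.Final

/-!
# The weighted Brouwer inequality

For a symmetric nonnegative matrix `A` with zero diagonal, `k` eigenvalues of the Laplacian of `A` sum
to at most the total weight plus the sum of the `C(k+1,2)` largest weights. The proof applies
Brouwer's inequality for projections (starting files `Pool.Br.cut`, `Pool.Br.core_of_cut`) to the
pairs on which the quadratic form of the projection exceeds one, and a knapsack inequality.
-/

set_option autoImplicit false

namespace Pool.Agent.R77.WB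

open Finset Matrix

/-- The knapsack inequality. -/
theorem knap {ι : Type*} [DecidableEq ι] (U : Finset ι) (K : ℕ) (hK : K ≤ U.card)
    (w x : ι → ℝ) (hw : ∀ p ∈ U, 0 ≤ w p) (hx0 : ∀ p ∈ U, 0 ≤ x p) (hx1 : ∀ p ∈ U, x p ≤ 1)
    (hxs : ∑ p ∈ U, x p ≤ K) :
    ∃ T ⊆ U, T.card = K ∧ ∑ p ∈ U, w p * x p ≤ ∑ p ∈ T, w p := by
  obtain ⟨T, hT, hmax⟩ := Finset.exists_max_image (U.powersetCard K) (fun T => ∑ p ∈ T, w p)
    (Finset.powersetCard_nonempty.mpr hK)
  rw [mem_powersetCard] at hT
  obtain ⟨hTU, hTc⟩ := hT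
  refine ⟨T, hTU, hTc, ?_⟩
  have hswap : ∀ p ∈ T, ∀ q ∈ U, q ∉ T → w q ≤ w p := by
    intro p hp q hq hqT
    have hqe : q ∉ T.erase p := fun h => hqT (Finset.mem_of_mem_erase h)
    have h1 := hmax (insert q (T.erase p)) (by
      rw [mem_powersetCard]
      refine ⟨?_, ?_⟩
      · intro z hz
        rcases mem_insert.mp hz with rfl | hz
        · exact hq
        · exact hTU (Finset.mem_of_mem_erase hz)
      · rw [card_insert_of_notMem hqe, card_erase_of_mem hp, hTc]
        have : 0 < T.card := card_pos.mpr ⟨p, hp⟩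
        omega)
    rw [sum_insert hqe] at h1
    have h2 := Finset.add_sum_erase T w hp
    linarith
  rcases Nat.eq_zero_or_pos K with h0 | hpos
  · subst h0
    have hz : ∀ p ∈ U, x p = 0 := by
      have h1 : ∑ p ∈ U, x p = 0 := le_antisymm (by simpa using hxs) (sum_nonneg hx0)
      exact (sum_eq_zero_iff_of_nonneg hx0).mp h1
    have h2 : ∑ p ∈ U, w p * x p = 0 := sum_eq_zero fun p hp => by rw [hz p hp, mul_zero]
    rw [h2]
    exact sum_nonneg fun p hp => hw p (hTU hp)
  · have hTne : T.Nonempty := card_pos.mp (by omega)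
    obtain ⟨m, hm, hmin⟩ := Finset.exists_min_image T w hTne
    have hc0 : 0 ≤ w m := hw m (hTU hm)
    have hsplit : ∑ p ∈ U, w p * x p = ∑ p ∈ T, w p * x p + ∑ p ∈ U \ T, w p * x p := by
      rw [add_comm, Finset.sum_sdiff hTU]
    have hsplit2 : ∑ p ∈ U, x p = ∑ p ∈ T, x p + ∑ p ∈ U \ T, x p := by
      rw [add_comm, Finset.sum_sdiff hTU]
    have h1 : ∑ p ∈ U \ T, w p * x p ≤ w m * ∑ p ∈ U \ T, x p := by
      rw [mul_sum]
      refine sum_le_sum fun p hp => ?_
      rw [mem_sdiff] at hp
      exact mul_le_mul_of_nonneg_right (hswap m hm p hp.1 hp.2) (hx0 p hp.1)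
    have h2 : ∑ p ∈ U \ T, x p ≤ ∑ p ∈ T, (1 - x p) := by
      rw [sum_sub_distrib, sum_const, nsmul_eq_mul, mul_one, hTc]
      linarith
    have h3 : w m * ∑ p ∈ T, (1 - x p) ≤ ∑ p ∈ T, w p * (1 - x p) := by
      rw [mul_sum]
      refine sum_le_sum fun p hp => ?_
      exact mul_le_mul_of_nonneg_right (hmin p hp) (by linarith [hx1 p (hTU hp)])
    have h4 : ∑ p ∈ T, w p * (1 - x p) = ∑ p ∈ T, w p - ∑ p ∈ T, w p * x p := by
      rw [← sum_sub_distrib]
      exact sum_congr rfl fun p _ => by ring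
    have h5 := mul_le_mul_of_nonneg_left h2 hc0
    linarith

/-- Sum over ordered pairs of a symmetric function with zero diagonal. -/
theorem sum_pairs {n : ℕ} (f : Fin n → Fin n → ℝ) (hf : ∀ i j, f i j = f j i) (hd : ∀ i, f i i = 0) :
    ∑ i, ∑ j, f i j = 2 * ∑ p ∈ (univ : Finset (Fin n × Fin n)).filter (fun p => p.1 < p.2),
      f p.1 p.2 := by
  have h1 : ∑ i, ∑ j, f i j = ∑ p : Fin n × Fin n, f p.1 p.2 := by
    rw [← Finset.univ_product_univ, Finset.sum_product]
  have h2 : ∑ p : Fin n × Fin n, f p.1 p.2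
      = ∑ p ∈ (univ : Finset (Fin n × Fin n)).filter (fun p => p.1 < p.2), f p.1 p.2
        + ∑ p ∈ (univ : Finset (Fin n × Fin n)).filter (fun p => p.2 < p.1), f p.1 p.2 := by
    rw [sum_filter, sum_filter, ← sum_add_distrib]
    refine sum_congr rfl fun p _ => ?_
    rcases lt_trichotomy p.1 p.2 with h | h | h
    · simp [h, not_lt_of_gt h]
    · simp [h, hd]
    · simp [h, not_lt_of_gt h]
  have h3 : ∑ p ∈ (univ : Finset (Fin n × Fin n)).filter (fun p => p.2 < p.1), f p.1 p.2
      = ∑ p ∈ (univ : Finset (Fin n × Fin n)).filter (fun p => p.1 < p.2), f p.1 p.2 := by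
    refine sum_nbij' Prod.swap Prod.swap ?_ ?_ ?_ ?_ ?_
    · intro p hp; simpa using hp
    · intro p hp; simpa using hp
    · intro p _; rfl
    · intro p _; rfl
    · intro p _
      exact hf _ _
  rw [h1, h2, h3]
  ring

theorem card_pairs (n : ℕ) :
    2 * ((univ : Finset (Fin n × Fin n)).filter (fun p => p.1 < p.2)).card = n * (n - 1) := by
  have h := sum_pairs (n := n) (fun i j => if i = j then 0 else 1)
    (fun i j => by simp only [eq_comm]) (fun i => by simp)
  have h2 : ∑ p ∈ (univ : Finset (Fin n × Fin n)).filter (fun p => p.1 < p.2),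
      (if p.1 = p.2 then (0 : ℝ) else 1)
      = (((univ : Finset (Fin n × Fin n)).filter (fun p => p.1 < p.2)).card : ℝ) := by
    rw [card_eq_sum_ones, Nat.cast_sum]
    refine sum_congr rfl fun p hp => ?_
    rw [mem_filter] at hp
    rw [if_neg (ne_of_lt hp.2)]
    simp
  rw [h2] at h
  have h3 : ∀ i : Fin n, ∑ j : Fin n, (if i = j then (0 : ℝ) else 1) = (n : ℝ) - 1 := by
    intro i
    have : ∀ j : Fin n, (if i = j then (0 : ℝ) else 1) = 1 - (if i = j then 1 else 0) := by
      intro j; split_ifs <;> simp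
    simp only [this, sum_sub_distrib, sum_const, card_univ, Fintype.card_fin, nsmul_eq_mul, mul_one,
      sum_ite_eq, mem_univ, if_true]
  simp only [h3, sum_const, card_univ, Fintype.card_fin, nsmul_eq_mul] at h
  rcases Nat.eq_zero_or_pos n with rfl | hn
  · simp
  · have h4 : ((n - 1 : ℕ) : ℝ) = (n : ℝ) - 1 := by push_cast [Nat.cast_sub hn]; ring
    have h5 : ((n * (n - 1) : ℕ) : ℝ) = ((2 * ((univ : Finset (Fin n × Fin n)).filter
        (fun p => p.1 < p.2)).card : ℕ) : ℝ) := by
      push_cast [h4]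
      linarith
    exact_mod_cast h5.symm

/-- The bound for a projection. -/
theorem proj_bound {n : ℕ} (P : Matrix (Fin n) (Fin n) ℝ) (hPs : Pᵀ = P) (hPi : P * P = P)
    (hP1 : ∀ i, ∑ j, P i j = 0) (t : ℕ) (htr : ∑ i, P i i = t) (k : ℕ) (htk : t ≤ k)
    (hk : k + 1 ≤ n)
    (A : Matrix (Fin n) (Fin n) ℝ) (hA : ∀ i j, 0 ≤ A i j) :
    ∃ T : Finset (Fin n × Fin n), T.card = (k + 1).choose 2 ∧ (∀ p ∈ T, p.1 < p.2) ∧
      ∑ p ∈ (univ : Finset (Fin n × Fin n)).filter (fun p => p.1 < p.2),
          A p.1 p.2 * (P p.1 p.1 + P p.2 p.2 - 2 * P p.1 p.2) ≤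
        ∑ p ∈ (univ : Finset (Fin n × Fin n)).filter (fun p => p.1 < p.2), A p.1 p.2
          + ∑ p ∈ T, A p.1 p.2 := by
  classical
  set U := (univ : Finset (Fin n × Fin n)).filter (fun p => p.1 < p.2) with hU
  have hsymm : ∀ i j, P i j = P j i := fun i j => by
    conv_lhs => rw [← hPs]
    rfl
  set q : Fin n → Fin n → ℝ := fun i j => P i i + P j j - 2 * P i j with hq
  have hqs : ∀ i j, q i j = q j i := fun i j => by
    simp only [hq]; rw [hsymm i j]; ring
  have hsq : ∀ i j, ∑ m, P m i * P m j = P i j := by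
    intro i j
    have h1 : (P * P) i j = P i j := by rw [hPi]
    rw [Matrix.mul_apply] at h1
    rw [← h1]
    exact sum_congr rfl fun m _ => by rw [hsymm m i]
  have hq2 : ∀ i j, i ≠ j → q i j ≤ 2 := by
    intro i j hij
    have h1 : 0 ≤ ∑ m, ((if m = i then (1 : ℝ) else 0) - (if m = j then (1 : ℝ) else 0)
        - (P m i - P m j)) ^ 2 := sum_nonneg fun m _ => sq_nonneg _
    have h2 : ∑ m, ((if m = i then (1 : ℝ) else 0) - (if m = j then (1 : ℝ) else 0)
        - (P m i - P m j)) ^ 2 = 2 - q i j := by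
      have h3 : ∀ m, ((if m = i then (1 : ℝ) else 0) - (if m = j then (1 : ℝ) else 0)
          - (P m i - P m j)) ^ 2
          = (if m = i then (1 : ℝ) else 0) + (if m = j then (1 : ℝ) else 0)
            - 2 * ((if m = i then (1 : ℝ) else 0) * (P m i - P m j))
            + 2 * ((if m = j then (1 : ℝ) else 0) * (P m i - P m j))
            + (P m i * P m i - 2 * (P m i * P m j) + P m j * P m j) := by
        intro m
        by_cases h1 : m = i
        · by_cases h2 : m = j
          · exact absurd (h1.symm.trans h2) hij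
          · simp only [h1, if_true, if_neg hij]
            ring
        · by_cases h2 : m = j
          · simp only [h2, if_true, if_neg (Ne.symm hij)]
            ring
          · simp only [if_neg h1, if_neg h2]
            ring
      simp only [h3, sum_add_distrib, sum_sub_distrib, ← mul_sum, ite_mul, one_mul, zero_mul,
        sum_ite_eq', mem_univ, if_true, hsq]
      simp only [hq]
      rw [hsymm j i]
      ring
    linarith
  set x : Fin n × Fin n → ℝ := fun p => max (q p.1 p.2 - 1) 0 with hx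
  have hbr := Pool.Br.core_of_cut P hPs hPi hP1 (fun i j => i ≠ j ∧ 1 < q i j)
    (fun i j h => ⟨h.1.symm, by rw [hqs]; exact h.2⟩)
    (fun S => Pool.Br.cut P hPs hPi hP1 (fun i j => i ≠ j ∧ 1 < q i j) S)
  have hbr2 : ∑ i, ∑ j, (if i ≠ j ∧ 1 < q i j then (P i i + P j j - 2 * P i j - 1) else 0)
      = 2 * ∑ p ∈ U, x p := by
    rw [sum_pairs (fun i j => if i ≠ j ∧ 1 < q i j then (P i i + P j j - 2 * P i j - 1) else 0)
      (fun i j => by
        have e := hqs i j
        have e2 := hsymm i j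
        simp only [ne_comm (a := i) (b := j), e, e2]
        split_ifs
        · ring
        · rfl)
      (fun i => by simp)]
    congr 1
    refine sum_congr rfl fun p hp => ?_
    rw [hU, mem_filter] at hp
    by_cases h : 1 < q p.1 p.2
    · rw [if_pos ⟨ne_of_lt hp.2, h⟩]
      simp only [hx]
      rw [max_eq_left (by linarith)]
    · rw [if_neg (fun h' => h h'.2)]
      simp only [hx]
      rw [max_eq_right (by linarith)]
  rw [hbr2, htr] at hbr
  have htk' : (t : ℝ) ≤ k := by exact_mod_cast htk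
  have ht0 : (0 : ℝ) ≤ t := Nat.cast_nonneg _
  have hxs : ∑ p ∈ U, x p ≤ ((k + 1).choose 2 : ℕ) := by
    rw [Nat.cast_choose_two]
    push_cast
    nlinarith
  have hKU : (k + 1).choose 2 ≤ U.card := by
    have h1 := card_pairs n
    rw [← hU] at h1
    have h2 : 2 * (k + 1).choose 2 = (k + 1) * k := by
      have := Nat.choose_two_right (k + 1)
      rw [this, Nat.add_sub_cancel]
      exact Nat.mul_div_cancel' (Nat.even_mul_pred_self (k + 1)).two_dvd
    have h3 : (k + 1) * k ≤ n * (n - 1) := Nat.mul_le_mul hk (by omega)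
    omega
  obtain ⟨T, hTU, hTc, hT⟩ := knap U _ hKU (fun p => A p.1 p.2) x (fun p _ => hA _ _)
    (fun p _ => le_max_right _ _)
    (fun p hp => by
      rw [hU, mem_filter] at hp
      have := hq2 p.1 p.2 (ne_of_lt hp.2)
      exact max_le (by linarith) zero_le_one) hxs
  refine ⟨T, hTc, fun p hp => by
    have := hTU hp
    rw [hU, mem_filter] at this
    exact this.2, ?_⟩
  refine le_trans ?_ (add_le_add (le_refl (∑ p ∈ U, A p.1 p.2)) hT)
  rw [← sum_add_distrib]
  refine sum_le_sum fun p _ => ?_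
  have h1 : q p.1 p.2 - 1 ≤ x p := le_max_left _ _
  have h2 := mul_le_mul_of_nonneg_left h1 (hA p.1 p.2)
  have h3 : P p.1 p.1 + P p.2 p.2 - 2 * P p.1 p.2 = q p.1 p.2 := rfl
  rw [h3]
  linarith

theorem main (n : ℕ) (A : Matrix (Fin n) (Fin n) ℝ) (hsA : A.IsSymm) (hA : ∀ i j, 0 ≤ A i j)
    (hd : ∀ i, A i i = 0)
    (hL : (Matrix.diagonal (fun i => ∑ j, A i j) - A).IsHermitian)
    (k : ℕ) (hk1 : 1 ≤ k) (hk : k ≤ n - 1) (s : Finset (Fin n)) (hs : s.card = k) :
    ∃ T : Finset (Fin n × Fin n), T.card = (k + 1).choose 2 ∧ (∀ p ∈ T, p.1 < p.2) ∧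
      ∑ i ∈ s, hL.eigenvalues i ≤
        (∑ i, ∑ j, if i < j then A i j else 0) + ∑ p ∈ T, A p.1 p.2 := by
  classical
  have hAs : ∀ i j, A i j = A j i := fun i j => by
    conv_lhs => rw [← hsA.eq]
    rfl
  set L : Matrix (Fin n) (Fin n) ℝ := Matrix.diagonal (fun i => ∑ j, A i j) - A with hLdef
  set u : Fin n → Fin n → ℝ := fun a i => hL.eigenvectorBasis a i with hu
  have horth : ∀ a c, ∑ i, u a i * u c i = if a = c then 1 else 0 := fun a c =>
    Pool.Helper237.Brouwer.inner_sum hL.eigenvectorBasis a c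
  have heig : ∀ a i, ∑ j, L i j * u a j = hL.eigenvalues a * u a i := by
    intro a i
    have h1 := congrFun (hL.mulVec_eigenvectorBasis a) i
    simpa [Matrix.mulVec, dotProduct, hu] using h1
  have hrow : ∀ j, ∑ i, L i j = 0 := by
    intro j
    have h1 : ∀ i, L i j = (if i = j then ∑ l, A i l else 0) - A i j := by
      intro i
      simp only [hLdef, Matrix.sub_apply, Matrix.diagonal_apply]
    simp only [h1, sum_sub_distrib, sum_ite_eq', mem_univ, if_true]
    rw [sub_eq_zero]
    exact sum_congr rfl fun i _ => hAs _ _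
  have hzero : ∀ a, hL.eigenvalues a ≠ 0 → ∑ i, u a i = 0 := by
    intro a ha
    have h1 : ∑ i, ∑ j, L i j * u a j = hL.eigenvalues a * ∑ i, u a i := by
      rw [mul_sum]
      exact sum_congr rfl fun i _ => heig a i
    rw [sum_comm] at h1
    have h2 : ∑ j, ∑ i, L i j * u a j = 0 := by
      refine sum_eq_zero fun j _ => ?_
      rw [← sum_mul, hrow, zero_mul]
    rw [h2] at h1
    rcases mul_eq_zero.mp h1.symm with h | h
    · exact absurd h ha
    · exact h
  set s' := s.filter (fun a => hL.eigenvalues a ≠ 0) with hs'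
  have hsum : ∑ a ∈ s, hL.eigenvalues a = ∑ a ∈ s', hL.eigenvalues a := by
    rw [hs', Finset.sum_filter_ne_zero]
  set P : Matrix (Fin n) (Fin n) ℝ := Matrix.of (fun i j => ∑ a ∈ s', u a i * u a j) with hP
  have hPapp : ∀ i j, P i j = ∑ a ∈ s', u a i * u a j := fun i j => rfl
  have hPs : Pᵀ = P := by
    ext i j
    rw [Matrix.transpose_apply, hPapp, hPapp]
    exact sum_congr rfl fun a _ => mul_comm _ _
  have hPi : P * P = P := by
    ext i j
    rw [Matrix.mul_apply, hPapp]
    have h1 : ∀ m, P i m * P m j = ∑ a ∈ s', ∑ c ∈ s', (u a i * u c j) * (u a m * u c m) := by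
      intro m
      rw [hPapp, hPapp, Finset.sum_mul_sum]
      exact sum_congr rfl fun a _ => sum_congr rfl fun c _ => by ring
    simp only [h1]
    rw [sum_comm]
    refine sum_congr rfl fun a ha => ?_
    rw [sum_comm]
    simp only [← mul_sum, horth]
    rw [Finset.sum_eq_single a]
    · simp
    · intro c _ hc
      simp [Ne.symm hc]
    · intro h
      exact absurd ha h
  have hP1 : ∀ i, ∑ j, P i j = 0 := by
    intro i
    simp only [hPapp]
    rw [sum_comm]
    refine sum_eq_zero fun a ha => ?_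
    rw [← mul_sum, hzero a (mem_filter.mp ha).2, mul_zero]
  have htr : ∑ i, P i i = (s'.card : ℕ) := by
    simp only [hPapp]
    rw [sum_comm]
    simp only [horth, if_true, sum_const, nsmul_eq_mul, mul_one]
  have hs'k : s'.card ≤ k := by rw [← hs]; exact card_filter_le _ _
  obtain ⟨T, hT1, hT2, hT3⟩ := proj_bound P hPs hPi hP1 s'.card htr k hs'k (by omega) A hA
  refine ⟨T, hT1, hT2, ?_⟩
  rw [hsum]
  have hev : ∀ a, hL.eigenvalues a = ∑ i, ∑ j, L i j * (u a i * u a j) := by
    intro a
    have h1 : ∀ i, ∑ j, L i j * (u a i * u a j) = hL.eigenvalues a * (u a i * u a i) := by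
      intro i
      have h2 : ∑ j, L i j * (u a i * u a j) = u a i * ∑ j, L i j * u a j := by
        rw [mul_sum]
        exact sum_congr rfl fun j _ => by ring
      rw [h2, heig]
      ring
    simp only [h1]
    rw [← mul_sum, horth, if_pos rfl, mul_one]
  have h1 : ∑ a ∈ s', hL.eigenvalues a = ∑ i, ∑ j, L i j * P i j := by
    simp only [hPapp, mul_sum]
    rw [sum_congr rfl fun a _ => hev a, sum_comm]
    refine sum_congr rfl fun i _ => ?_
    rw [sum_comm]
  have h2 : ∑ i, ∑ j, L i j * P i j = ∑ i, ∑ j, A i j * (P i i - P i j) := by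
    refine sum_congr rfl fun i _ => ?_
    have h3 : ∀ j, L i j * P i j = (if i = j then (∑ l, A i l) * P i j else 0) - A i j * P i j := by
      intro j
      simp only [hLdef, Matrix.sub_apply, Matrix.diagonal_apply]
      split_ifs <;> ring
    simp only [h3, sum_sub_distrib, sum_ite_eq, mem_univ, if_true, mul_sub, sum_mul]
  have h3 : 2 * ∑ i, ∑ j, A i j * (P i i - P i j)
      = ∑ i, ∑ j, A i j * (P i i + P j j - 2 * P i j) := by
    have h4 : ∑ i, ∑ j, A i j * (P i i - P i j) = ∑ i, ∑ j, A i j * (P j j - P i j) := by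
      rw [sum_comm]
      refine sum_congr rfl fun i _ => sum_congr rfl fun j _ => ?_
      have e : P j i = P i j := by
        conv_rhs => rw [← hPs]
        rfl
      rw [hAs j i, e]
    have h5 : ∑ i, ∑ j, A i j * (P i i + P j j - 2 * P i j)
        = ∑ i, ∑ j, A i j * (P i i - P i j) + ∑ i, ∑ j, A i j * (P j j - P i j) := by
      rw [← sum_add_distrib]
      refine sum_congr rfl fun i _ => ?_
      rw [← sum_add_distrib]
      exact sum_congr rfl fun j _ => by ring
    rw [h5, ← h4]
    ring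
  have h4 : ∑ i, ∑ j, A i j * (P i i + P j j - 2 * P i j)
      = 2 * ∑ p ∈ (univ : Finset (Fin n × Fin n)).filter (fun p => p.1 < p.2),
          A p.1 p.2 * (P p.1 p.1 + P p.2 p.2 - 2 * P p.1 p.2) :=
    sum_pairs (fun i j => A i j * (P i i + P j j - 2 * P i j))
      (fun i j => by
        have e : P j i = P i j := by
          conv_rhs => rw [← hPs]
          rfl
        rw [hAs i j, e]; ring)
      (fun i => by rw [hd i, zero_mul])
  have h5 : (∑ i, ∑ j, if i < j then A i j else 0)
      = ∑ p ∈ (univ : Finset (Fin n × Fin n)).filter (fun p => p.1 < p.2), A p.1 p.2 := by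
    rw [sum_filter, ← Finset.univ_product_univ, Finset.sum_product]
  rw [h1, h2, h5]
  linarith

end Pool.Agent.R77.WB
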